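import Pool.Agent.H24R2.DZ.Spec
import Pool.Agent.H986R2.K4.HHb
import Pool.Agent.H24R2.JP.Zeta
import Pool.Agent.H24R2.JP.B1

set_option autoImplicit false

/-!
# Good points give the normalised local situation (task SD-SC2)
-/

namespace Pool.Agent.W655.SD

open Complex Filter Topology MeasureTheory Set
open Pool.Agent.H24R2.JP (XX HH Om)
open Pool.Agent.H24R2.DZ

section Dbl

theorem dbl_le_mono (f g : ℝ → ℝ → ℝ) {a b c d a' b' c' d' : ℝ}
    (ha : a ≤ a') (hab' : a' ≤ b') (hb : b' ≤ b) (hc : c ≤ c') (hcd' : c' ≤ d') (hd : d' ≤ d)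
    (hf : ContinuousOn (fun p : ℝ × ℝ => f p.1 p.2) (Icc a' b' ×ˢ Icc c' d'))
    (hg : ContinuousOn (fun p : ℝ × ℝ => g p.1 p.2) (Icc a b ×ˢ Icc c d))
    (hfg : ∀ x ∈ Icc a' b', ∀ y ∈ Icc c' d', f x y ≤ g x y)
    (h0 : ∀ x ∈ Icc a b, ∀ y ∈ Icc c d, 0 ≤ g x y) :
    ∫ x in a'..b', ∫ y in c'..d', f x y ≤ ∫ x in a..b, ∫ y in c..d, g x y := by
  have hab : a ≤ b := ha.trans (hab'.trans hb)
  have hcd : c ≤ d := hc.trans (hcd'.trans hd)
  set F : ℝ → ℝ → ℝ := fun x y => f (projIcc a' b' hab' x) (projIcc c' d' hcd' y) with hF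
  set G : ℝ → ℝ → ℝ := fun x y => g (projIcc a b hab x) (projIcc c d hcd y) with hG
  have hFc : Continuous (fun p : ℝ × ℝ => F p.1 p.2) := by
    have : Continuous (fun p : ℝ × ℝ => ((projIcc a' b' hab' p.1 : ℝ), (projIcc c' d' hcd' p.2 : ℝ))) :=
      ((continuous_subtype_val.comp (continuous_projIcc.comp continuous_fst))).prodMk
        (continuous_subtype_val.comp (continuous_projIcc.comp continuous_snd))
    exact hf.comp_continuous this (fun p => ⟨(projIcc a' b' hab' p.1).2, (projIcc c' d' hcd' p.2).2⟩)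
  have hGc : Continuous (fun p : ℝ × ℝ => G p.1 p.2) := by
    have : Continuous (fun p : ℝ × ℝ => ((projIcc a b hab p.1 : ℝ), (projIcc c d hcd p.2 : ℝ))) :=
      ((continuous_subtype_val.comp (continuous_projIcc.comp continuous_fst))).prodMk
        (continuous_subtype_val.comp (continuous_projIcc.comp continuous_snd))
    exact hg.comp_continuous this (fun p => ⟨(projIcc a b hab p.1).2, (projIcc c d hcd p.2).2⟩)
  have hFf : ∀ x ∈ Icc a' b', ∀ y ∈ Icc c' d', F x y = f x y := by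
    intro x hx y hy
    simp only [hF, projIcc_of_mem hab' hx, projIcc_of_mem hcd' hy]
  have hGg : ∀ x ∈ Icc a b, ∀ y ∈ Icc c d, G x y = g x y := by
    intro x hx y hy
    simp only [hG, projIcc_of_mem hab hx, projIcc_of_mem hcd hy]
  have e1 : ∫ x in a'..b', ∫ y in c'..d', f x y = ∫ x in a'..b', ∫ y in c'..d', F x y := by
    refine intervalIntegral.integral_congr fun x hx => ?_
    rw [uIcc_of_le hab'] at hx
    refine intervalIntegral.integral_congr fun y hy => ?_
    rw [uIcc_of_le hcd'] at hy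
    exact (hFf x hx y hy).symm
  have e2 : ∫ x in a..b, ∫ y in c..d, g x y = ∫ x in a..b, ∫ y in c..d, G x y := by
    refine intervalIntegral.integral_congr fun x hx => ?_
    rw [uIcc_of_le hab] at hx
    refine intervalIntegral.integral_congr fun y hy => ?_
    rw [uIcc_of_le hcd] at hy
    exact (hGg x hx y hy).symm
  rw [e1, e2]
  have hG0 : ∀ x y, 0 ≤ G x y := fun x y => h0 _ (projIcc a b hab x).2 _ (projIcc c d hcd y).2
  have cF : Continuous fun x => ∫ y in c'..d', F x y :=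
    intervalIntegral.continuous_parametric_intervalIntegral_of_continuous' hFc c' d'
  have cG' : Continuous fun x => ∫ y in c'..d', G x y :=
    intervalIntegral.continuous_parametric_intervalIntegral_of_continuous' hGc c' d'
  have cG : Continuous fun x => ∫ y in c..d, G x y :=
    intervalIntegral.continuous_parametric_intervalIntegral_of_continuous' hGc c d
  have cFx : ∀ x, Continuous (F x) := fun x => hFc.comp (Continuous.prodMk_right x)
  have cGx : ∀ x, Continuous (G x) := fun x => hGc.comp (Continuous.prodMk_right x)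
  calc ∫ x in a'..b', ∫ y in c'..d', F x y
      ≤ ∫ x in a'..b', ∫ y in c..d, G x y := by
        refine intervalIntegral.integral_mono_on hab' (cF.intervalIntegrable _ _)
          (cG.intervalIntegrable _ _) fun x hx => ?_
        have hx' : x ∈ Icc a b := ⟨ha.trans hx.1, hx.2.trans hb⟩
        calc ∫ y in c'..d', F x y ≤ ∫ y in c'..d', G x y := by
              refine intervalIntegral.integral_mono_on hcd' ((cFx x).intervalIntegrable _ _)
                ((cGx x).intervalIntegrable _ _) fun y hy => ?_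
              rw [hFf x hx y hy, hGg x hx' y ⟨hc.trans hy.1, hy.2.trans hd⟩]
              exact hfg x hx y hy
          _ ≤ ∫ y in c..d, G x y := by
              refine intervalIntegral.integral_mono_interval hc hcd' hd ?_
                ((cGx x).intervalIntegrable _ _)
              exact Filter.Eventually.of_forall fun y => hG0 x y
    _ ≤ ∫ x in a..b, ∫ y in c..d, G x y := by
        refine intervalIntegral.integral_mono_interval ha hab' hb ?_ (cG.intervalIntegrable _ _)
        refine Filter.Eventually.of_forall fun x => ?_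
        exact intervalIntegral.integral_nonneg hcd fun y _ => hG0 x y

end Dbl

section Cont

theorem im_ne {t0 x y : ℝ} (ht : 2 ≤ t0) (hy : -1 ≤ y) :
    (1 / 2 + (x : ℂ) + (t0 + y) * I) ≠ 1 := by
  intro h
  have := congrArg Complex.im h
  simp at this
  linarith

theorem cont_zeta {t0 : ℝ} (ht : 2 ≤ t0) {S : Set (ℝ × ℝ)} (hS : ∀ p ∈ S, -1 ≤ p.2) :
    ContinuousOn (fun p : ℝ × ℝ => riemannZeta (1 / 2 + p.1 + (t0 + p.2) * I)) S := by
  intro p hp
  apply ContinuousAt.continuousWithinAt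
  have h1 := im_ne (x := p.1) ht (hS p hp)
  exact (differentiableAt_riemannZeta h1).continuousAt.comp
    (f := fun p : ℝ × ℝ => (1 / 2 + (p.1 : ℂ) + (t0 + p.2) * I)) (by fun_prop)

theorem mT_diff (θ T : ℝ) : Differentiable ℂ (mT θ T) := by
  unfold mT MM
  apply Differentiable.fun_sum
  intro h hh
  have h0 : ((h : ℕ) : ℂ) ≠ 0 := by
    have := (Finset.mem_Icc.1 hh).1
    exact_mod_cast (by omega : h ≠ 0)
  refine Differentiable.const_mul ?_ _
  intro s
  exact (differentiable_id.neg s).const_cpow (Or.inl h0)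

end Cont

/-- the statement `SSq` with the constant -/
def SqC (C : ℝ) : Prop := ∀ (g : ℂ → ℂ) (x0 y0 ρ : ℝ), 0 < ρ →
  (∀ z : ℂ, |z.re - x0| ≤ ρ → |z.im - y0| ≤ ρ → DifferentiableAt ℂ g z) →
  ‖g (x0 + y0 * I)‖ ^ 2 ≤ C / ρ ^ 2 *
    ∫ x in (x0 - ρ)..(x0 + ρ), ∫ y in (y0 - ρ)..(y0 + ρ), ‖g (x + y * I)‖ ^ 2

section Parts

variable {C1 θ T a t0 r η1 ε : ℝ}

theorem partA (hC1 : 0 < C1) (hsq : SqC C1) (hr0 : 0 < r) (hr : r ≤ 1 / 100) (ht : 2 ≤ t0)
    (hG : (∫ x in (r / 4000)..(30 * r), ∫ y in (-(30 * r))..(30 * r),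
      ‖riemannZeta (1 / 2 + x + (t0 + y) * I) * mT θ T (1 / 2 + x + (t0 + y) * I) - 1‖ ^ 2) ≤
        1 / (256000000 * C1) * r ^ 2) (x1 y1 : ℝ) (hx1 : r / 2000 ≤ x1) (hx2 : x1 ≤ 25 * r)
    (hy1 : -(25 * r) ≤ y1) (hy2 : y1 ≤ 25 * r) :
    ‖riemannZeta (1 / 2 + x1 + (t0 + y1) * I) * mT θ T (1 / 2 + x1 + (t0 + y1) * I) - 1‖ ≤ 1 / 2 := by
  set g : ℂ → ℂ := fun w => riemannZeta (1 / 2 + w + t0 * I) * mT θ T (1 / 2 + w + t0 * I) - 1 with hg
  have hgv : ∀ x y : ℝ, g (x + y * I) =
      riemannZeta (1 / 2 + x + (t0 + y) * I) * mT θ T (1 / 2 + x + (t0 + y) * I) - 1 := by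
    intro x y
    simp only [hg]
    have : (1 / 2 + ((x : ℂ) + y * I) + t0 * I) = 1 / 2 + x + (t0 + y) * I := by ring
    rw [this]
  have h := hsq g x1 y1 (r / 8000) (by positivity) ?_
  · simp only [hgv] at h
    have hI : ∫ x in (x1 - r / 8000)..(x1 + r / 8000), ∫ y in (y1 - r / 8000)..(y1 + r / 8000),
        ‖riemannZeta (1 / 2 + x + (t0 + y) * I) * mT θ T (1 / 2 + x + (t0 + y) * I) - 1‖ ^ 2 ≤
        1 / (256000000 * C1) * r ^ 2 := by
      refine le_trans ?_ hG
      have hc : ∀ S : Set (ℝ × ℝ), (∀ p ∈ S, -1 ≤ p.2) → ContinuousOn (fun p : ℝ × ℝ =>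
          ‖riemannZeta (1 / 2 + p.1 + (t0 + p.2) * I) * mT θ T (1 / 2 + p.1 + (t0 + p.2) * I) - 1‖ ^ 2) S := by
        intro S hS
        refine ContinuousOn.pow (ContinuousOn.norm (((cont_zeta ht hS).mul ?_).sub
          continuousOn_const)) 2
        exact ((mT_diff θ T).continuous.comp (by fun_prop)).continuousOn
      refine dbl_le_mono
        (fun x y => ‖riemannZeta (1 / 2 + x + (t0 + y) * I) * mT θ T (1 / 2 + x + (t0 + y) * I) - 1‖ ^ 2)
        (fun x y => ‖riemannZeta (1 / 2 + x + (t0 + y) * I) * mT θ T (1 / 2 + x + (t0 + y) * I) - 1‖ ^ 2)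
        (by linarith) (by linarith) (by linarith) (by linarith) (by linarith) (by linarith)
        (hc _ ?_) (hc _ ?_) (fun _ _ _ _ => le_rfl) (fun _ _ _ _ => by positivity)
      · intro p hp
        have := hp.2.1
        linarith
      · intro p hp
        have := hp.2.1
        linarith
    have h3 : C1 / (r / 8000) ^ 2 * (1 / (256000000 * C1) * r ^ 2) = (1 / 2) ^ 2 := by
      field_simp
      norm_num
    have h4 : ‖riemannZeta (1 / 2 + x1 + (t0 + y1) * I) * mT θ T (1 / 2 + x1 + (t0 + y1) * I) - 1‖ ^ 2 ≤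
        (1 / 2) ^ 2 := by
      rw [← h3]
      exact h.trans (mul_le_mul_of_nonneg_left hI (by positivity))
    exact (pow_le_pow_iff_left₀ (norm_nonneg _) (by norm_num) two_ne_zero).1 h4
  · intro z hz1 hz2
    have h1 : (1 / 2 + z + t0 * I) ≠ 1 := by
      intro h
      have := congrArg Complex.im h
      simp at this
      rw [abs_le] at hz2
      linarith
    have h2 : DifferentiableAt ℂ (fun w : ℂ => 1 / 2 + w + t0 * I) z := by fun_prop
    exact (((differentiableAt_riemannZeta h1).comp z h2).mul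
      (((mT_diff θ T) _).comp z h2)).sub (differentiableAt_const _)

theorem cont2 (M : ℂ) (ht : 2 ≤ t0) (S : Set (ℝ × ℝ)) (hS : ∀ p ∈ S, -1 ≤ p.2) :
    ContinuousOn (fun p : ℝ × ℝ => ‖riemannZeta (1 / 2 + p.1 + (t0 + p.2) * I) * M‖ ^ 2) S :=
  ContinuousOn.pow (ContinuousOn.norm ((cont_zeta ht hS).mul continuousOn_const)) 2

theorem partB (hC1 : 0 < C1) (hsq : SqC C1) (hr0 : 0 < r) (hr : r ≤ 1 / 100) (ht : 2 ≤ t0) (M : ℂ)
    (E : ℝ) (hG : (∫ x in (0 : ℝ)..(30 * r), ∫ y in (-(30 * r))..(30 * r),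
      ‖riemannZeta (1 / 2 + x + (t0 + y) * I) * M‖ ^ 2) ≤ E * r ^ 2)
    (x1 y1 : ℝ) (hx1 : r / 2000 ≤ x1) (hx2 : x1 ≤ 25 * r)
    (hy1 : -(25 * r) ≤ y1) (hy2 : y1 ≤ 25 * r) :
    ‖riemannZeta (1 / 2 + x1 + (t0 + y1) * I) * M‖ ^ 2 ≤ 16000000 * C1 * E := by
  set g : ℂ → ℂ := fun w => riemannZeta (1 / 2 + w + t0 * I) * M with hg
  have hgv : ∀ x y : ℝ, g (x + y * I) = riemannZeta (1 / 2 + x + (t0 + y) * I) * M := by
    intro x y
    simp only [hg]
    have : (1 / 2 + ((x : ℂ) + y * I) + t0 * I) = 1 / 2 + x + (t0 + y) * I := by ring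
    rw [this]
  have h := hsq g x1 y1 (r / 4000) (by positivity) ?_
  · simp only [hgv] at h
    have hI : ∫ x in (x1 - r / 4000)..(x1 + r / 4000), ∫ y in (y1 - r / 4000)..(y1 + r / 4000),
        ‖riemannZeta (1 / 2 + x + (t0 + y) * I) * M‖ ^ 2 ≤ E * r ^ 2 := by
      refine le_trans ?_ hG
      refine dbl_le_mono
        (fun x y => ‖riemannZeta (1 / 2 + x + (t0 + y) * I) * M‖ ^ 2)
        (fun x y => ‖riemannZeta (1 / 2 + x + (t0 + y) * I) * M‖ ^ 2)
        (by linarith) (by linarith) (by linarith) (by linarith) (by linarith) (by linarith)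
        (cont2 M ht _ ?_) (cont2 M ht _ ?_) (fun _ _ _ _ => le_rfl) (fun _ _ _ _ => by positivity)
      · intro p hp
        have := hp.2.1
        linarith
      · intro p hp
        have := hp.2.1
        linarith
    have h3 : C1 / (r / 4000) ^ 2 * (E * r ^ 2) = 16000000 * C1 * E := by
      field_simp
      ring
    rw [← h3]
    exact h.trans (mul_le_mul_of_nonneg_left hI (by positivity))
  · intro z hz1 hz2
    have h1 : (1 / 2 + z + t0 * I) ≠ 1 := by
      intro h
      have := congrArg Complex.im h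
      simp at this
      rw [abs_le] at hz2
      linarith
    have h2 : DifferentiableAt ℂ (fun w : ℂ => 1 / 2 + w + t0 * I) z := by fun_prop
    exact ((differentiableAt_riemannZeta h1).comp z h2).mul (differentiableAt_const _)

theorem XX_symm (z : ℂ) : XX (-(starRingEnd ℂ z)) = starRingEnd ℂ (XX z) := by
  rw [Pool.Agent.H24R2.JP.B1h.XX_neg, Pool.Agent.H24R2.JP.B1h.XX_conj]

theorem int_even (G : ℝ → ℝ) (hG : Continuous G) (he : ∀ x, G (-x) = G x) (A : ℝ) :
    ∫ x in (-A)..A, G x = 2 * ∫ x in (0 : ℝ)..A, G x := by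
  rw [← intervalIntegral.integral_add_adjacent_intervals (b := 0) (hG.intervalIntegrable _ _)
    (hG.intervalIntegrable _ _)]
  have : ∫ x in (-A)..0, G x = ∫ x in (0 : ℝ)..A, G x := by
    have h := intervalIntegral.integral_comp_neg (a := 0) (b := A) G
    simp only [he, neg_zero] at h
    exact h.symm
  rw [this]
  ring

/-- The bound near the critical line. -/
theorem partC (hC1 : 0 < C1) (hsq : SqC C1) (hr0 : 0 < r) (hr : r ≤ 1 / 100) (ht : 2 ≤ t0) (M : ℂ)
    (hM : M ≠ 0) (E : ℝ) (hG : (∫ x in (0 : ℝ)..(30 * r), ∫ y in (-(30 * r))..(30 * r),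
      ‖riemannZeta (1 / 2 + x + (t0 + y) * I) * M‖ ^ 2) ≤ E * r ^ 2)
    (B : ℝ) (hB : ∀ x y : ℝ, 0 ≤ x → x ≤ r / 50 → -(21 * r) ≤ y → y ≤ 21 * r →
      ‖HH (I * t0 + (x + y * I))‖ ^ 2 ≤ B)
    (x1 y1 : ℝ) (hx1 : -(r / 1000) ≤ x1) (hx2 : x1 ≤ r / 1000)
    (hy1 : -(20 * r) ≤ y1) (hy2 : y1 ≤ 20 * r) :
    ‖XX (I * t0 + (x1 + y1 * I))‖ ^ 2 ≤ 20000 * C1 * B * E / ‖M‖ ^ 2 := by
  have hB0 : 0 ≤ B := (sq_nonneg _).trans (hB 0 0 le_rfl (by positivity) (by linarith) (by linarith))
  have h := hsq (fun w => XX (I * t0 + w)) x1 y1 (r / 100) (by positivity) ?_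
  · set f : ℝ → ℝ → ℝ := fun x y => ‖XX (I * t0 + (x + y * I))‖ ^ 2 with hf
    have hfc : Continuous (fun p : ℝ × ℝ => f p.1 p.2) := by
      simp only [hf]
      exact (Pool.Agent.H24R2.JP.B1h.XX_diff.continuous.comp (by fun_prop)).norm.pow 2
    have hM0 : 0 < ‖M‖ := norm_pos_iff.2 hM
    -- enlarge the square
    have e1 : ∫ x in (x1 - r / 100)..(x1 + r / 100), ∫ y in (y1 - r / 100)..(y1 + r / 100), f x y ≤
        ∫ x in (-(r / 50))..(r / 50), ∫ y in (-(21 * r))..(21 * r), f x y :=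
      dbl_le_mono f f (by linarith) (by linarith) (by linarith) (by linarith) (by linarith)
        (by linarith) hfc.continuousOn hfc.continuousOn (fun _ _ _ _ => le_rfl)
        (fun _ _ _ _ => by positivity)
    have e2 : ∫ x in (-(r / 50))..(r / 50), ∫ y in (-(21 * r))..(21 * r), f x y =
        2 * ∫ x in (0 : ℝ)..(r / 50), ∫ y in (-(21 * r))..(21 * r), f x y := by
      refine int_even _ (intervalIntegral.continuous_parametric_intervalIntegral_of_continuous' hfc
        _ _) (fun x => ?_) _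
      refine intervalIntegral.integral_congr fun y _ => ?_
      simp only [hf]
      have : (I * t0 + (((-x : ℝ) : ℂ) + y * I)) = -(starRingEnd ℂ (I * t0 + (x + y * I))) := by
        simp only [map_add, map_mul, conj_I, conj_ofReal, ofReal_neg]
        ring
      rw [this, XX_symm, Complex.norm_conj]
    have e3 : ∫ x in (0 : ℝ)..(r / 50), ∫ y in (-(21 * r))..(21 * r), f x y ≤
        ∫ x in (0 : ℝ)..(30 * r), ∫ y in (-(30 * r))..(30 * r),
          B / ‖M‖ ^ 2 * ‖riemannZeta (1 / 2 + x + (t0 + y) * I) * M‖ ^ 2 := by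
      refine dbl_le_mono f
        (fun x y => B / ‖M‖ ^ 2 * ‖riemannZeta (1 / 2 + x + (t0 + y) * I) * M‖ ^ 2)
        le_rfl (by positivity) (by linarith) (by linarith) (by linarith) (by linarith)
        hfc.continuousOn (continuousOn_const.mul (cont2 M ht _ ?_)) ?_
        (fun _ _ _ _ => by positivity)
      · intro p hp
        have := hp.2.1
        linarith
      · intro x hx y hy
        simp only [hf]
        have him : 0 < (I * t0 + ((x : ℂ) + y * I)).im := by
          simp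
          have := hy.1
          linarith
        rw [Pool.Agent.H24R2.JP.zetaS.1 _ him, norm_mul, mul_pow]
        have e4 : (1 / 2 + (I * t0 + ((x : ℂ) + y * I))) = 1 / 2 + x + (t0 + y) * I := by ring
        rw [e4, norm_mul, mul_pow]
        have e5 : B / ‖M‖ ^ 2 * (‖riemannZeta (1 / 2 + x + (t0 + y) * I)‖ ^ 2 * ‖M‖ ^ 2) =
            B * ‖riemannZeta (1 / 2 + x + (t0 + y) * I)‖ ^ 2 := by
          field_simp
        rw [e5]
        exact mul_le_mul_of_nonneg_right (hB x y hx.1 hx.2 hy.1 hy.2) (by positivity)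
    have e6 : ∫ x in (0 : ℝ)..(30 * r), ∫ y in (-(30 * r))..(30 * r),
          B / ‖M‖ ^ 2 * ‖riemannZeta (1 / 2 + x + (t0 + y) * I) * M‖ ^ 2 ≤
          B / ‖M‖ ^ 2 * (E * r ^ 2) := by
      simp only [intervalIntegral.integral_const_mul]
      exact mul_le_mul_of_nonneg_left hG (by positivity)
    have e7 : C1 / (r / 100) ^ 2 * (2 * (B / ‖M‖ ^ 2 * (E * r ^ 2))) =
        20000 * C1 * B * E / ‖M‖ ^ 2 := by
      field_simp
      ring
    rw [← e7]
    refine h.trans (mul_le_mul_of_nonneg_left ?_ (by positivity))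
    calc _ ≤ _ := e1
      _ = _ := e2
      _ ≤ _ := by linarith [e3, e6]
  · intro z _ _
    exact (Pool.Agent.H24R2.JP.B1h.XX_diff _).comp z (by fun_prop)

end Parts

theorem pt_eq (t0 r : ℝ) (z : ℂ) : (1 / 2 + (I * t0 + r * z) : ℂ) =
    1 / 2 + ((r * z.re : ℝ) : ℂ) + (t0 + ((r * z.im : ℝ) : ℂ)) * I := by
  apply Complex.ext <;> simp

theorem om_near {T a t0 r L : ℝ} (hLd : L = Real.log T) (hr : r = a / (L / 2)) (ha : 0 < a)
    (hL : 200 * a ≤ L) (hT : 0 < T) (ht1 : T / 2 ≤ t0) (ht2 : t0 ≤ 3 * T) :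
    |r * Om t0 - a| ≤ 1 := by
  have hL0 : 0 < L := by linarith
  have ht0 : 0 < t0 := by linarith
  have h1 : r * Om t0 - a = a / L * (Real.log t0 - Real.log T) := by
    rw [hr, Om, ← hLd]
    field_simp
  have h2 : |Real.log t0 - Real.log T| ≤ 2 := by
    rw [← Real.log_div ht0.ne' hT.ne', abs_le]
    constructor
    · have h3 := Real.log_le_sub_one_of_pos (show 0 < T / t0 by positivity)
      have h4 : Real.log (t0 / T) = -Real.log (T / t0) := by
        rw [← Real.log_inv, inv_div]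
      have h5 : T / t0 ≤ 2 := by
        rw [div_le_iff₀ ht0]; linarith
      rw [h4]
      linarith
    · have h3 := Real.log_le_sub_one_of_pos (show 0 < t0 / T by positivity)
      have h5 : t0 / T ≤ 3 := by
        rw [div_le_iff₀ hT]; linarith
      linarith
  rw [h1, abs_mul, abs_of_pos (by positivity)]
  have h3 : a / L ≤ 1 / 200 := by
    rw [div_le_iff₀ hL0]
    linarith
  calc a / L * |Real.log t0 - Real.log T| ≤ 1 / 200 * 2 := by gcongr
    _ ≤ 1 := by norm_num

theorem sc2 (h1 : SSq) (h2 : SHar) : SC2 := by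
  obtain ⟨C1, hC1, hsq⟩ := h1
  obtain ⟨C2, hC2, hhar⟩ := h2
  obtain ⟨K, hK, hHH⟩ := Pool.Agent.H986R2.K4.hh
  obtain ⟨T1, hT1, hHH⟩ := hHH 1 le_rfl
  intro η hη
  set ε := min (1 / 10) (η / C2) with hε
  have hε0 : 0 < ε := lt_min (by norm_num) (by positivity)
  have hε1 : ε ≤ 1 / 10 := min_le_left _ _
  have hε2 : C2 * ε ≤ η := by
    have h3 : ε ≤ η / C2 := min_le_right _ _
    calc C2 * ε ≤ C2 * (η / C2) := by gcongr
      _ = η := by field_simp
  refine ⟨1 / (256000000 * C1), ε, by positivity, hε0, ?_⟩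
  intro θ hθ hθ'
  set D := Real.log (1 + 2 * Real.sqrt (16000000 * C1)) with hD
  have hsq0 := Real.sqrt_nonneg (16000000 * C1)
  have hD0 : 0 ≤ D := Real.log_nonneg (by linarith)
  have hDe : Real.exp D = 1 + 2 * Real.sqrt (16000000 * C1) := Real.exp_log (by linarith)
  set E0 := Real.log (1 + 80000 * C1) with hE0
  have hE0e : Real.exp E0 = 1 + 80000 * C1 := Real.exp_log (by positivity)
  refine ⟨max 1 (max ((C2 * D + K + 1) * 2 / η) (20 * (E0 + 2 + 4 * K))), 2 * T1, ?_⟩
  intro T a t0 hT ha haL ht1 ht2 hG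
  have ha1 : 1 ≤ a := (le_max_left _ _).trans ha
  have ha2 : (C2 * D + K + 1) * 2 / η ≤ a :=
    ((le_max_left _ _).trans (le_max_right _ _)).trans ha
  have ha3 : 20 * (E0 + 2 + 4 * K) ≤ a :=
    ((le_max_right _ _).trans (le_max_right _ _)).trans ha
  have hT0 : 0 < T := by linarith
  set r := ra T a with hrdef
  have hL200 : 200 * a ≤ Real.log T := by linarith
  have hr_eq : r = a / (Real.log T / 2) := rfl
  have hL0 : 0 < Real.log T := by linarith
  have hr0 : 0 < r := by rw [hr_eq]; positivity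
  have hr : r ≤ 1 / 100 := by rw [hr_eq, div_le_iff₀ (by positivity)]; linarith
  have ht : 2 ≤ t0 := by linarith
  have htT : T1 ≤ t0 := by linarith
  have hOm := om_near rfl hr_eq (by linarith) hL200 hT0 ht1 ht2
  have hOm0 : 0 ≤ Om t0 := by
    unfold Om
    have := Real.log_nonneg (show (1 : ℝ) ≤ t0 by linarith)
    linarith
  obtain ⟨hG1, hG2⟩ := hG
  rw [← hrdef] at hG1 hG2
  set M := mT θ T (1 / 2 + r + t0 * I) with hMdef
  set Kf : ℂ → ℂ := fun z => riemannZeta (1 / 2 + (I * t0 + r * z)) with hKf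
  have hA : ∀ z : ℂ, 1 / 2000 ≤ z.re → z.re ≤ 25 → |z.im| ≤ 25 →
      ‖Kf z * mT θ T (1 / 2 + (I * t0 + r * z)) - 1‖ ≤ 1 / 2 := by
    intro z hz1 hz2 hz3
    rw [abs_le] at hz3
    simp only [hKf]
    rw [pt_eq]
    exact partA hC1 hsq hr0 hr ht hG1 (r * z.re) (r * z.im)
      (by linarith [mul_le_mul_of_nonneg_left hz1 hr0.le])
      (by linarith [mul_le_mul_of_nonneg_left hz2 hr0.le])
      (by linarith [mul_le_mul_of_nonneg_left hz3.1 hr0.le])
      (by linarith [mul_le_mul_of_nonneg_left hz3.2 hr0.le])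
  have hKne : ∀ z : ℂ, 1 / 2000 ≤ z.re → z.re ≤ 25 → |z.im| ≤ 25 → Kf z ≠ 0 := by
    intro z hz1 hz2 hz3 h0
    have := hA z hz1 hz2 hz3
    rw [h0, zero_mul, zero_sub, norm_neg, norm_one] at this
    norm_num at this
  have hone : 1 / 2 ≤ ‖Kf 1 * M‖ := by
    have h3 := hA 1 (by norm_num) (by norm_num) (by norm_num)
    have h4 : (1 / 2 + (I * t0 + r * 1) : ℂ) = 1 / 2 + r + t0 * I := by ring
    rw [h4, ← hMdef] at h3
    have h5 : ‖(1 : ℂ)‖ ≤ ‖Kf 1 * M‖ + ‖Kf 1 * M - 1‖ := by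
      have := norm_sub_le (Kf 1 * M) (Kf 1 * M - 1)
      simpa using this
    rw [norm_one] at h5
    linarith
  have hM0 : M ≠ 0 := by
    intro h0
    rw [h0, mul_zero, norm_zero] at hone
    norm_num at hone
  have hMn : 0 < ‖M‖ := norm_pos_iff.2 hM0
  have hBd : ∀ z : ℂ, 1 / 2000 ≤ z.re → z.re ≤ 25 → |z.im| ≤ 25 →
      ‖Kf z‖ ≤ Real.exp (ε * a / 2 + D) * ‖Kf 1‖ := by
    intro z hz1 hz2 hz3
    rw [abs_le] at hz3
    have h3 := partB hC1 hsq hr0 hr ht M (Real.exp (ε * a)) hG2 (r * z.re) (r * z.im)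
      (by linarith [mul_le_mul_of_nonneg_left hz1 hr0.le])
      (by linarith [mul_le_mul_of_nonneg_left hz2 hr0.le])
      (by linarith [mul_le_mul_of_nonneg_left hz3.1 hr0.le])
      (by linarith [mul_le_mul_of_nonneg_left hz3.2 hr0.le])
    rw [← pt_eq] at h3
    have h4 : 16000000 * C1 * Real.exp (ε * a) =
        (Real.sqrt (16000000 * C1) * Real.exp (ε * a / 2)) ^ 2 := by
      rw [mul_pow, Real.sq_sqrt (by positivity), ← Real.exp_nat_mul]
      congr 2
      push_cast
      ring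
    rw [h4] at h3
    have h5 := (pow_le_pow_iff_left₀ (norm_nonneg _) (by positivity) two_ne_zero).1 h3
    change ‖Kf z * M‖ ≤ _ at h5
    rw [norm_mul] at h5
    have h6 : ‖Kf z‖ * ‖M‖ ≤ (Real.exp (ε * a / 2 + D) * ‖Kf 1‖) * ‖M‖ := by
      rw [norm_mul] at hone
      calc ‖Kf z‖ * ‖M‖ ≤ Real.sqrt (16000000 * C1) * Real.exp (ε * a / 2) := h5
        _ ≤ (Real.exp D / 2) * Real.exp (ε * a / 2) := by
            gcongr
            linarith
        _ = Real.exp (ε * a / 2 + D) * (1 / 2) := by rw [Real.exp_add]; ring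
        _ ≤ Real.exp (ε * a / 2 + D) * (‖Kf 1‖ * ‖M‖) := by gcongr
        _ = _ := by ring
    exact le_of_mul_le_mul_right h6 hMn
  have him : ∀ z : ℂ, |z.im| ≤ 25 → 0 < (I * t0 + r * z : ℂ).im := by
    intro z hz
    rw [abs_le] at hz
    simp
    linarith [mul_le_mul_of_nonneg_left hz.1 hr0.le]
  have hKd : ∀ z : ℂ, |z.im| ≤ 25 → DifferentiableAt ℂ Kf z := by
    intro z hz
    have h3 : (1 / 2 + (I * t0 + r * z) : ℂ) ≠ 1 := by
      intro h
      have h4 := congrArg Complex.im h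
      have h5 := him z hz
      simp at h4 h5
      linarith
    exact (differentiableAt_riemannZeta h3).comp z (by fun_prop)
  have hFK : ∀ z : ℂ, |z.im| ≤ 25 → XX (I * t0 + r * z) = HH (I * t0 + r * z) * Kf z := by
    intro z hz
    exact Pool.Agent.H24R2.JP.zetaS.1 _ (him z hz)
  refine ⟨?_, ?_, ?_, ?_⟩
  · intro z
    exact (Pool.Agent.H24R2.JP.B1h.XX_diff _).comp z (by fun_prop)
  · intro z
    have : (I * t0 + r * (-(starRingEnd ℂ z)) : ℂ) = -(starRingEnd ℂ (I * t0 + r * z)) := by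
      simp only [map_add, map_mul, conj_I, conj_ofReal]
      ring
    simp only [this, XX_symm]
  · intro z hz1 hz2
    have hre := (Complex.re_le_norm z).trans hz2
    have himz := (Complex.abs_im_le_norm z).trans hz2
    have hzr : ‖(r : ℂ) * z‖ ≤ 1 := by
      rw [norm_mul, Complex.norm_real, Real.norm_of_nonneg hr0.le]
      linarith [mul_le_mul_of_nonneg_left hz2 hr0.le]
    obtain ⟨hd, hne, hld, -, -⟩ := hHH t0 (r * z) htT hzr
    have hK0 : Kf z ≠ 0 := hKne z (by linarith) (by linarith) (by linarith)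
    have hF0 : XX (I * t0 + r * z) = HH (I * t0 + r * z) * Kf z := hFK z (by linarith)
    refine ⟨by simp only [hF0]; exact mul_ne_zero hne hK0, ?_⟩
    have hev : (fun z : ℂ => XX (I * t0 + r * z)) =ᶠ[𝓝 z]
        fun z => HH (I * t0 + r * z) * Kf z := by
      have hopen : IsOpen {w : ℂ | |w.im| < 25} :=
        isOpen_lt (continuous_abs.comp Complex.continuous_im) continuous_const
      filter_upwards [hopen.mem_nhds (show |z.im| < 25 by linarith)] with w hw
      exact hFK w hw.le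
    have hlg : logDeriv (fun z : ℂ => XX (I * t0 + r * z)) z =
        logDeriv (fun z : ℂ => HH (I * t0 + r * z) * Kf z) z := by
      rw [logDeriv_apply, logDeriv_apply, hev.deriv_eq, hF0]
    have haff : HasDerivAt (fun z : ℂ => I * t0 + r * z) (r : ℂ) z := by
      simpa using ((hasDerivAt_id z).const_mul (r : ℂ)).const_add (I * t0)
    have hcd : DifferentiableAt ℂ (fun z : ℂ => HH (I * t0 + r * z)) z :=
      DifferentiableAt.comp (g := HH) (f := fun z : ℂ => I * t0 + r * z) z hd haff.differentiableAt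
    rw [hlg, logDeriv_mul z hne hK0 hcd (hKd z (by linarith))]
    have hcomp : logDeriv (fun z : ℂ => HH (I * t0 + r * z)) z =
        logDeriv HH (I * t0 + r * z) * r := by
      have := logDeriv_comp (f := HH) (g := fun z : ℂ => I * t0 + r * z) (x := z) hd
        haff.differentiableAt
      rw [haff.deriv] at this
      exact this
    rw [hcomp]
    have hkb := hhar (ε * a / 2 + D) Kf (by positivity) (fun w hw1 hw2 hw3 =>
      ⟨hKd w hw3, hKne w hw1 hw2 hw3, hBd w hw1 hw2 hw3⟩) z hz1 (by linarith) (by linarith)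
    have e1 : logDeriv HH (I * t0 + r * z) * r + logDeriv Kf z - a =
        (logDeriv HH (I * t0 + r * z) - (Om t0 : ℂ)) * r + ((r * Om t0 - a : ℝ) : ℂ) +
          logDeriv Kf z := by
      push_cast
      ring
    rw [e1]
    have e2 : ‖(logDeriv HH (I * t0 + r * z) - (Om t0 : ℂ)) * r‖ ≤ K * 1 := by
      rw [norm_mul, Complex.norm_real, Real.norm_of_nonneg hr0.le]
      gcongr
      linarith
    have e3 : ‖((r * Om t0 - a : ℝ) : ℂ)‖ ≤ 1 := by
      rw [Complex.norm_real]
      exact hOm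
    have e4 : C2 * D + K + 1 ≤ η * a / 2 := by
      rw [div_le_iff₀ hη] at ha2
      linarith
    have e5 : C2 * (ε * a / 2 + D) ≤ η * a / 2 + C2 * D := by
      have : C2 * ε * (a / 2) ≤ η * (a / 2) := by gcongr
      linarith
    calc _ ≤ ‖(logDeriv HH (I * t0 + r * z) - (Om t0 : ℂ)) * r‖ + ‖((r * Om t0 - a : ℝ) : ℂ)‖ +
          ‖logDeriv Kf z‖ := norm_add₃_le
      _ ≤ K * 1 + 1 + C2 * (ε * a / 2 + D) := by gcongr
      _ ≤ η * a := by linarith
  · intro z hz1 hz2
    have himz := (Complex.abs_im_le_norm z).trans hz2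
    rw [abs_le] at hz1 himz
    have h1r : ‖(r : ℂ)‖ ≤ 1 := by
      rw [Complex.norm_real, Real.norm_of_nonneg hr0.le]
      linarith
    obtain ⟨-, hne1, -, hlow, -⟩ := hHH t0 r htT h1r
    rw [ofReal_re, mul_one] at hlow
    set N1 := ‖HH (I * t0 + r)‖ with hN1
    have hBB : ∀ x y : ℝ, 0 ≤ x → x ≤ r / 50 → -(21 * r) ≤ y → y ≤ 21 * r →
        ‖HH (I * t0 + (x + y * I))‖ ^ 2 ≤
          Real.exp (2 * (-(49 / 50 * (r * Om t0)) + 2 * K)) * N1 ^ 2 := by
      intro x y hx1 hx2 hy1 hy2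
      have hu : ‖(x + y * I : ℂ)‖ ≤ 1 := by
        refine (Complex.norm_le_abs_re_add_abs_im _).trans ?_
        have e1 : (x + y * I : ℂ).re = x := by simp
        have e2 : (x + y * I : ℂ).im = y := by simp
        rw [e1, e2, abs_of_nonneg hx1]
        have : |y| ≤ 21 * r := abs_le.2 ⟨hy1, hy2⟩
        linarith
      obtain ⟨-, -, -, -, hup⟩ := hHH t0 (x + y * I) htT hu
      have e1 : (x + y * I : ℂ).re = x := by simp
      rw [e1, mul_one] at hup
      have h3 : ‖HH (I * t0)‖ ≤ Real.exp (-(Om t0 * r) + K) * N1 := by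
        have h4 : Real.exp (-(Om t0 * r) + K) * (Real.exp (Om t0 * r - K) * ‖HH (I * t0)‖) =
            ‖HH (I * t0)‖ := by
          rw [← mul_assoc, ← Real.exp_add]
          simp
        rw [← h4]
        gcongr
      have h5 : ‖HH (I * t0 + (x + y * I))‖ ≤ Real.exp (-(49 / 50 * (r * Om t0)) + 2 * K) * N1 := by
        calc ‖HH (I * t0 + (x + y * I))‖ ≤ Real.exp (Om t0 * x + K) * ‖HH (I * t0)‖ := hup
          _ ≤ Real.exp (Om t0 * x + K) * (Real.exp (-(Om t0 * r) + K) * N1) := by gcongr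
          _ = Real.exp (Om t0 * x - Om t0 * r + 2 * K) * N1 := by
              rw [← mul_assoc, ← Real.exp_add]
              congr 2
              ring
          _ ≤ _ := by
              have : Om t0 * x ≤ Om t0 * (r / 50) := by gcongr
              have h6 : Om t0 * x - Om t0 * r + 2 * K ≤ -(49 / 50 * (r * Om t0)) + 2 * K := by
                linarith
              gcongr
      calc ‖HH (I * t0 + (x + y * I))‖ ^ 2 ≤
            (Real.exp (-(49 / 50 * (r * Om t0)) + 2 * K) * N1) ^ 2 := by gcongr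
        _ = _ := by
            rw [mul_pow, ← Real.exp_nat_mul]
            push_cast
            rfl
    have hz : (I * t0 + r * z : ℂ) = I * t0 + (((r * z.re : ℝ) : ℂ) + ((r * z.im : ℝ) : ℂ) * I) := by
      apply Complex.ext <;> simp
    have hc := partC hC1 hsq hr0 hr ht M hM0 (Real.exp (ε * a)) hG2 _ hBB (r * z.re) (r * z.im)
      (by linarith [mul_le_mul_of_nonneg_left hz1.1 hr0.le])
      (by linarith [mul_le_mul_of_nonneg_left hz1.2 hr0.le])
      (by linarith [mul_le_mul_of_nonneg_left himz.1 hr0.le])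
      (by linarith [mul_le_mul_of_nonneg_left himz.2 hr0.le])
    rw [← hz] at hc
    -- the value at 1
    have hF1 : ‖XX (I * t0 + r * 1)‖ = N1 * ‖Kf 1‖ := by
      rw [hFK 1 (by norm_num), norm_mul, mul_one]
    have hN : N1 ≤ 2 * ‖XX (I * t0 + r * 1)‖ * ‖M‖ := by
      rw [hF1]
      rw [norm_mul] at hone
      have : N1 * (1 / 2) ≤ N1 * (‖Kf 1‖ * ‖M‖) :=
        mul_le_mul_of_nonneg_left hone (norm_nonneg _)
      linarith
    set F1 := ‖XX (I * t0 + r * 1)‖ with hF1d
    have hN2 : N1 ^ 2 ≤ 4 * F1 ^ 2 * ‖M‖ ^ 2 := by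
      calc N1 ^ 2 ≤ (2 * F1 * ‖M‖) ^ 2 := by
            have : 0 ≤ N1 := norm_nonneg _
            gcongr
        _ = _ := by ring
    have hfin : ‖XX (I * t0 + r * z)‖ ^ 2 ≤ (F1 * Real.exp (-(9 / 10 * a))) ^ 2 := by
      calc ‖XX (I * t0 + r * z)‖ ^ 2 ≤ _ := hc
        _ ≤ 20000 * C1 * (Real.exp (2 * (-(49 / 50 * (r * Om t0)) + 2 * K)) *
              (4 * F1 ^ 2 * ‖M‖ ^ 2)) * Real.exp (ε * a) / ‖M‖ ^ 2 := by gcongr
        _ = (80000 * C1) * (Real.exp (2 * (-(49 / 50 * (r * Om t0)) + 2 * K)) *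
              Real.exp (ε * a)) * F1 ^ 2 := by
            field_simp
            ring
        _ ≤ Real.exp E0 * (Real.exp (2 * (-(49 / 50 * (r * Om t0)) + 2 * K)) *
              Real.exp (ε * a)) * F1 ^ 2 := by
            gcongr
            rw [hE0e]
            linarith
        _ = Real.exp (E0 + (2 * (-(49 / 50 * (r * Om t0)) + 2 * K) + ε * a)) * F1 ^ 2 := by
            rw [← Real.exp_add, ← Real.exp_add]
        _ ≤ Real.exp (2 * (-(9 / 10 * a))) * F1 ^ 2 := by
            have h3 := (abs_le.1 hOm).1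
            have h4 : ε * a ≤ 1 / 10 * a := by gcongr
            have h5 : E0 + (2 * (-(49 / 50 * (r * Om t0)) + 2 * K) + ε * a) ≤
                2 * (-(9 / 10 * a)) := by
              linarith
            gcongr
        _ = _ := by
            rw [mul_pow, ← Real.exp_nat_mul]
            push_cast
            ring
    exact (pow_le_pow_iff_left₀ (norm_nonneg _) (by positivity) two_ne_zero).1 hfin

end Pool.Agent.W655.SD
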